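import Pool.Agent.H86.FDA.Tools

/-! Row COR: the core theorem. -/

namespace Pool.FDA

open Function Filter

namespace Cor

/-- the diagonal embedding as a ring homomorphism -/
noncomputable def cstHom (K : Type) [PAM K] : K →+* UP K where
  toFun := cst
  map_one' := rfl
  map_zero' := rfl
  map_add' _ _ := rfl
  map_mul' _ _ := rfl

theorem cstHom_apply {K : Type} [PAM K] (a : K) : cstHom K a = cst a := rfl

theorem cstHom_strictMono (K : Type) [PAM K] : StrictMono (cstHom K) :=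
  fun _ _ h => Germ.const_lt h

theorem mod_iff {K K' : Type} [PAM K] [PAM K'] (ι : K →+* K') (hA : AbsAll ι) (φ : Fm) :
    Mod K φ ↔ Mod K' φ := by
  have h := hA φ (fun _ => 0)
  simp only [map_zero] at h
  exact h

end Cor

open Cor in
theorem t_cor (hNIS : NISStmt) (hLOS : LOSStmt) (hLSK : LSKStmt) (hTRS : TRSStmt)
    (hCDT : CDTStmt) (hBUP : BUPStmt) (hPI2 : PI2Stmt) (hPRS : PRSStmt) (hXIF : XIFStmt)
    (hCOD : CODStmt) (hXJ1 : XJ1Stmt) (hXJ2 : XJ2Stmt) : CORStmt := by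
  intro M _ hI hColl hS hR
  obtain ⟨A, hA1, hA2⟩ := hR
  obtain ⟨ε, x, y, hε, hxy, p, e₀, hCD⟩ := hNIS M hS
  -- the ultrapower
  have hel : AbsAll (cstHom M) := up_elem hLOS M
  set y₀ : UP M := ((fun n => (e₀ + 2) ^ n : ℕ → M) : UP M) with hy₀
  have hy : ∀ k : ℕ, (cst e₀ + 2 : UP M) ^ k ≤ y₀ := by
    intro k
    have h1 : (cst e₀ + 2 : UP M) ^ k = ((fun _ => (e₀ + 2) ^ k : ℕ → M) : UP M) := rfl
    rw [h1, hy₀, Germ.coe_le]
    filter_upwards [ev_gt k] with n hn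
    refine pow_le_pow_right₀ ?_ hn.le
    have : (1 : M) ≤ 2 := one_le_two
    exact this.trans (le_add_of_nonneg_left (pam_zero_le _))
  obtain ⟨J, hJP, ι, hJc, hιm, hιA, hιr⟩ := hLSK (UP M)
    (Set.range (fun n => cst (p n)) ∪ {cst e₀, y₀})
    ((Set.countable_range _).union ((Set.countable_singleton _).insert _))
  have hp : ∀ n, ∃ a : J, ι a = cst (p n) := fun n => hιr (Or.inl ⟨n, rfl⟩)
  choose pJ hpJ using hp
  obtain ⟨eJ, heJ⟩ : ∃ a : J, ι a = cst e₀ := hιr (Or.inr (Or.inl rfl))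
  obtain ⟨yJ, hyJ⟩ : ∃ a : J, ι a = y₀ := hιr (Or.inr (Or.inr rfl))
  have hIJ : IDelta0 J := (hTRS J (UP M) ι hιm hιA).1.2
    ((hTRS M (UP M) (cstHom M) (cstHom_strictMono M) hel).1.1 hI)
  have hCJ : Coll0 J := (hTRS J (UP M) ι hιm hιA).2.2
    ((hTRS M (UP M) (cstHom M) (cstHom_strictMono M) hel).2.1 hColl)
  have hCDJ : CD J ε x y pJ eJ := by
    rw [hCDT J (UP M) ι hιA ε x y hxy pJ eJ, heJ]
    have : (fun n => ι (pJ n)) = fun n => cst (p n) := funext hpJ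
    rw [this]
    exact (hCDT M (UP M) (cstHom M) hel ε x y hxy p e₀).1 hCD
  have hyJ' : ∀ k : ℕ, (eJ + 2) ^ k ≤ yJ := by
    intro k
    rw [← hιm.le_iff_le, hyJ, map_pow, map_add, heJ, map_ofNat]
    exact hy k
  have hnJ : ∀ n : ℕ, (n : J) ≤ yJ := by
    intro n
    refine le_trans ?_ (hyJ' n)
    have h1 : (n : J) ≤ ((2 ^ n : ℕ) : J) := Nat.cast_le.2 Nat.lt_two_pow_self.le
    refine h1.trans ?_
    rw [Nat.cast_pow, Nat.cast_ofNat]
    exact pow_le_pow_left₀ (by exact zero_le_two) (le_add_of_nonneg_left (pam_zero_le _)) n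
  have hmodJ : ∀ φ : Fm, Mod M φ ↔ Mod J φ := fun φ =>
    (mod_iff (cstHom M) hel φ).trans (mod_iff ι hιA φ).symm
  -- the hull and the two models
  obtain ⟨J', hJ'P, i, j, hH⟩ := hBUP J
  obtain ⟨⟨b₁, b₂, d, hN⟩, H, hHP, g, h, hgh, hhm, hh0, hh1, hxiH⟩ :=
    hXJ2 J J' i j hH hJc hIJ ε x y hε hxy pJ eJ hCDJ ⟨yJ, hyJ'⟩
  have hxiJ : Xi J' ε x y :=
    hXJ1 J' ε x y ⟨_, b₁, b₂, d, hN⟩ (hCOD J J' i j hH ⟨yJ, hnJ⟩)
  have hP2 := hPI2 J J' i j hH hCJ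
  have hAJ' : ∀ σ ∈ A, Mod J' σ := by
    intro σ hσ
    obtain ⟨_, h2, h3⟩ := hA1 σ hσ
    have h4 := hPRS.2.1 J J' i hP2 σ h2 (fun _ => 0) ((hmodJ σ).1 h3)
    simp only [map_zero] at h4
    exact h4
  have hAH : ∀ σ ∈ A, Mod H σ := by
    intro σ hσ
    obtain ⟨_, h2, h3⟩ := hA1 σ hσ
    have h4 := hPRS.2.2 J J' H i g h hgh hh1 hP2 σ h2 (fun _ => 0) ((hmodJ σ).1 h3)
    simp only [map_zero] at h4
    exact h4
  obtain ⟨ξ, hξc, hξ⟩ := hXIF ε x y hε hxy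
  by_cases hM : Mod M ξ
  · exact hxiH ((hξ H).1 (hA2 H hAH ξ hξc hM))
  · have h1 : Mod J' (.neg ξ) := hA2 J' hAJ' (.neg ξ) hξc hM
    exact h1 ((hξ J').2 hxiJ)

end Pool.FDA
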