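import Pool.Agent.H86.FDA.S1

/-! Row LSK: Löwenheim–Skolem. -/

namespace Pool.FDA

open Function

deriving instance Countable for Tm
deriving instance Countable for Fm

namespace Lsk

variable {K : Type} [PAM K]

/-- the assignment given by a list -/
def asg (l : List K) : ℕ → K := fun n => l.getD n 0

open Classical in
/-- a witness function -/
noncomputable def wit (q : Fm × ℕ × List K) : K :=
  if h : ∃ a : K, Sat (update (asg q.2.2) q.2.1 a) q.1 then h.choose else 0

/-- one step of the closure -/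
def stp (A : Set K) : Set K := A ∪ {a | ∃ (φ : Fm) (x : ℕ) (l : List K), (∀ b ∈ l, b ∈ A) ∧
  wit (φ, x, l) = a}

theorem stp_countable {A : Set K} (hA : A.Countable) : (stp A).Countable := by
  refine hA.union ?_
  have : Countable A := hA.to_subtype
  have h1 : {a | ∃ (φ : Fm) (x : ℕ) (l : List K), (∀ b ∈ l, b ∈ A) ∧
      wit (φ, x, l) = a} ⊆ Set.range (fun q : Fm × ℕ × List A =>
        wit (q.1, q.2.1, q.2.2.map Subtype.val)) := by
    rintro a ⟨φ, x, l, hl, rfl⟩
    refine ⟨(φ, x, l.attach.map fun b => ⟨b.1, hl b.1 b.2⟩), ?_⟩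
    simp only [List.map_map]
    congr 2
    congr 1
    have : (Subtype.val ∘ fun b : {x // x ∈ l} => (⟨b.1, hl b.1 b.2⟩ : A)) = Subtype.val := rfl
    rw [this, List.attach_map_subtype_val]
  exact (Set.countable_range _).mono h1

/-- the iterates -/
def itr (s : Set K) : ℕ → Set K
  | 0 => s
  | n + 1 => stp (itr s n)

theorem itr_countable {s : Set K} (hs : s.Countable) (n : ℕ) : (itr s n).Countable := by
  induction n with
  | zero => exact hs
  | succ n ih => exact stp_countable ih

theorem itr_mono (s : Set K) : Monotone (itr s) :=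
  monotone_nat_of_le_succ fun _ => Set.subset_union_left

/-- the hull -/
def hull (s : Set K) : Set K := ⋃ n, itr s n

theorem list_in {s : Set K} (l : List K) (hl : ∀ b ∈ l, b ∈ hull s) :
    ∃ n, ∀ b ∈ l, b ∈ itr s n := by
  induction l with
  | nil => exact ⟨0, by simp⟩
  | cons a l ih =>
    obtain ⟨n, hn⟩ := ih fun b hb => hl b (List.mem_cons_of_mem _ hb)
    obtain ⟨m, hm⟩ := Set.mem_iUnion.1 (hl a List.mem_cons_self)
    refine ⟨max n m, fun b hb => ?_⟩
    rcases List.mem_cons.1 hb with rfl | hb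
    · exact itr_mono s (le_max_right _ _) hm
    · exact itr_mono s (le_max_left _ _) (hn b hb)

theorem tv (hC : COIStmt) {s : Set K} (φ : Fm) (x : ℕ) (e : ℕ → K) (he : ∀ n, e n ∈ hull s)
    (h : ∃ a, Sat (update e x a) φ) : ∃ a ∈ hull s, Sat (update e x a) φ := by
  obtain ⟨N, hN⟩ : ∃ N, ∀ n ∈ φ.fv, n < N :=
    ⟨φ.fv.sup id + 1, fun n hn => Nat.lt_succ_of_le (Finset.le_sup (f := id) hn)⟩
  set l : List K := (List.range N).map e with hl
  have hl1 : ∀ b ∈ l, b ∈ hull s := by
    intro b hb
    rw [hl, List.mem_map] at hb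
    obtain ⟨n, _, rfl⟩ := hb
    exact he n
  have hl2 : ∀ n < N, asg l n = e n := by
    intro n hn
    have h2 : n < l.length := by simp [hl, hn]
    simp only [asg]
    rw [List.getD_eq_getElem _ _ h2]
    simp [hl]
  have key : ∀ a, Sat (update e x a) φ ↔ Sat (update (asg l) x a) φ := by
    intro a
    refine hC K φ _ _ fun n hn => ?_
    by_cases hx : n = x
    · subst hx; simp
    · rw [update_of_ne hx, update_of_ne hx, hl2 n (hN n hn)]
  obtain ⟨m, hm⟩ := list_in l hl1
  obtain ⟨a, ha⟩ := h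
  have hex : ∃ a : K, Sat (update (asg l) x a) φ := ⟨a, (key a).1 ha⟩
  refine ⟨wit (φ, x, l), Set.mem_iUnion.2 ⟨m + 1, Or.inr ⟨φ, x, l, hm, rfl⟩⟩, ?_⟩
  rw [key, wit, dif_pos hex]
  exact hex.choose_spec

theorem val_hom {J : Type} [PAM J] (ι : J →+* K) (e : ℕ → J) (t : Tm) :
    ι (t.val e) = t.val (fun n => ι (e n)) := by
  induction t with
  | var n => rfl
  | zero => exact map_zero ι
  | one => exact map_one ι
  | add s t ihs iht => simp only [Tm.val, map_add, ihs, iht]
  | mul s t ihs iht => simp only [Tm.val, map_mul, ihs, iht]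

end Lsk

open Lsk in
theorem t_lsk (hC : COIStmt) : LSKStmt := by
  intro K _ s hs
  classical
  set s' : Set K := insert 0 s with hs'
  have hs'c : s'.Countable := hs.insert 0
  have hsub : s' ⊆ hull s' := fun a ha => Set.mem_iUnion.2 ⟨0, ha⟩
  have h0 : (0 : K) ∈ hull s' := hsub (Set.mem_insert _ _)
  have e3 : ∀ a b : K, a ∈ hull s' → b ∈ hull s' →
      ∀ n, asg [a, b] n ∈ hull s' := by
    intro a b ha hb n
    match n with
    | 0 => exact ha
    | 1 => exact hb
    | n + 2 => exact h0
  have hadd : ∀ a b : K, a ∈ hull s' → b ∈ hull s' → a + b ∈ hull s' := by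
    intro a b ha hb
    obtain ⟨c, hc, hc2⟩ := tv hC (.eq (.var 2) (.add (.var 0) (.var 1))) 2 (asg [a, b])
      (e3 a b ha hb) ⟨a + b, by simp [Sat, Tm.val, asg]⟩
    have : c = a + b := by simpa [Sat, Tm.val, asg] using hc2
    exact this ▸ hc
  have hmul : ∀ a b : K, a ∈ hull s' → b ∈ hull s' → a * b ∈ hull s' := by
    intro a b ha hb
    obtain ⟨c, hc, hc2⟩ := tv hC (.eq (.var 2) (.mul (.var 0) (.var 1))) 2 (asg [a, b])
      (e3 a b ha hb) ⟨a * b, by simp [Sat, Tm.val, asg]⟩
    have : c = a * b := by simpa [Sat, Tm.val, asg] using hc2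
    exact this ▸ hc
  have hone : (1 : K) ∈ hull s' := by
    obtain ⟨c, hc, hc2⟩ := tv hC (.eq (.var 2) .one) 2 (asg [0, 0])
      (e3 0 0 h0 h0) ⟨1, by simp [Sat, Tm.val]⟩
    have : c = 1 := by simpa [Sat, Tm.val] using hc2
    exact this ▸ hc
  have hsubt : ∀ a b : K, a ∈ hull s' → b ∈ hull s' → a ≤ b → ∃ c ∈ hull s', a + c = b := by
    intro a b ha hb hab
    obtain ⟨c₀, hc₀⟩ := PAM.sub' a b hab
    obtain ⟨c, hc, hc2⟩ := tv hC (.eq (.add (.var 0) (.var 2)) (.var 1)) 2 (asg [a, b])
      (e3 a b ha hb) ⟨c₀, by simp [Sat, Tm.val, asg, hc₀]⟩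
    exact ⟨c, hc, by simpa [Sat, Tm.val, asg] using hc2⟩
  let S : Subsemiring K :=
    { carrier := hull s'
      mul_mem' := fun {a b} ha hb => hmul a b ha hb
      one_mem' := hone
      add_mem' := fun {a b} ha hb => hadd a b ha hb
      zero_mem' := h0 }
  let P : PAM S :=
    { zero_le' := fun x => PAM.zero_le' x.1
      sub' := fun x y hxy => by
        obtain ⟨c, hc, h⟩ := hsubt x.1 y.1 x.2 y.2 hxy
        exact ⟨⟨c, hc⟩, Subtype.ext h⟩
      disc' := fun x hx => PAM.disc' x.1 hx }
  have hcount : (hull s').Countable := Set.countable_iUnion fun n => itr_countable hs'c n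
  refine ⟨S, P, S.subtype, hcount.to_subtype, fun a b hab => hab, ?_, ?_⟩
  · intro φ
    induction φ with
    | eq s t =>
      intro e
      simp only [Sat]
      rw [← val_hom S.subtype e s, ← val_hom S.subtype e t]
      exact (Subtype.val_injective.eq_iff).symm
    | lt s t =>
      intro e
      simp only [Sat]
      rw [← val_hom S.subtype e s, ← val_hom S.subtype e t]
      exact Iff.rfl
    | neg φ ih => intro e; exact not_congr (ih e)
    | and φ ψ ih1 ih2 => intro e; exact and_congr (ih1 e) (ih2 e)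
    | ex x φ ih =>
      intro e
      simp only [Sat]
      have hup : ∀ a : S, (fun n => S.subtype (update e x a n)) =
          update (fun n => S.subtype (e n)) x (S.subtype a) := by
        intro a
        funext m
        by_cases h : m = x
        · subst h; simp
        · simp [update_of_ne h]
      constructor
      · rintro ⟨a, ha⟩
        refine ⟨a, ?_⟩
        have := (ih (update e x a)).1 ha
        rwa [hup] at this
      · intro h
        obtain ⟨a, ha, hs⟩ := tv hC φ x (fun n => S.subtype (e n)) (fun n => (e n).2) h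
        refine ⟨⟨a, ha⟩, (ih _).2 ?_⟩
        rw [hup]
        exact hs
  · intro a ha
    exact ⟨⟨a, hsub (Set.mem_insert_of_mem _ ha)⟩, rfl⟩

end Pool.FDA
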