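import Pool.Agent.H86.FDA.S1

/-! Row PRS: preservation of `Π₂` and `Σ₃` formulas. -/

namespace Pool.FDA

open Function

namespace Prs

theorem comp_upd {A B : Type} (f : A → B) (e : ℕ → A) (n : ℕ) (a : A) :
    (fun m => f (update e n a m)) = update (fun m => f (e m)) n (f a) := by
  funext m
  by_cases h : m = n
  · subst h; simp
  · simp [update_of_ne h]

theorem down {K K' : Type} [PAM K] [PAM K'] (ι : K → K') (hι : Abs1 ι) {b : Bool} {m : ℕ}
    {φ : Fm} (h : SP b m φ) : b = false → m = 2 → ∀ e : ℕ → K, Sat (fun n => ι (e n)) φ →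
      Sat e φ := by
  induction h with
  | base b hd => intro _ h2; omega
  | @up b n φ hs ih =>
    intro hb hm e he
    subst hb
    have hn : n = 1 := by omega
    subst hn
    exact (hι φ hs e).2 he
  | ex x hs ih => intro hb; exact absurd hb (by decide)
  | @all n x φ hs ih =>
    intro _ hm e he
    simp only [Fm.all, Sat, not_exists, not_not] at he ⊢
    intro a
    apply ih rfl hm
    rw [comp_upd]
    exact he (ι a)

theorem upw {K K' : Type} [PAM K] [PAM K'] (ι : K → K') (hι : ∀ φ : Fm, SP false 2 φ →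
      ∀ e : ℕ → K, Sat e φ → Sat (fun n => ι (e n)) φ) {b : Bool} {m : ℕ}
    {φ : Fm} (h : SP b m φ) : b = true → m = 3 → ∀ e : ℕ → K, Sat e φ →
      Sat (fun n => ι (e n)) φ := by
  induction h with
  | base b hd => intro _ h2; omega
  | @up b n φ hs ih =>
    intro hb hm e he
    subst hb
    have hn : n = 2 := by omega
    subst hn
    exact hι φ hs e he
  | @ex n x φ hs ih =>
    intro _ hm e he
    obtain ⟨a, ha⟩ := he
    refine ⟨ι a, ?_⟩
    rw [← comp_upd]
    exact ih rfl hm _ ha
  | all x hs ih => intro hb; exact absurd hb (by decide)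

end Prs

theorem t_prs : PRSStmt := by
  refine ⟨?_, ?_, ?_⟩
  · intro K K' _ _ ι hι φ hφ e he
    exact Prs.down ι hι hφ rfl rfl e he
  · intro K J' _ _ ι hι φ hφ e he
    exact Prs.upw ι hι hφ rfl rfl e he
  · intro K J' H _ _ _ i g h hg hh hi φ hφ e he
    refine Prs.upw g ?_ hφ rfl rfl e he
    intro ψ hψ e' he'
    refine Prs.down h hh hψ rfl rfl _ ?_
    have := hi ψ hψ e' he'
    simpa only [hg] using this

end Pool.FDA
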