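import Pool.Agent.H86.FDA.Tools

/-! Row SEQ: a cofinal sequence in the cut, with prescribed parities. -/

namespace Pool.FDA

open Function

namespace Seq

variable {J : Type} [PAM J]

/-- parity formula -/
def par : Fm := .ex 1 (.and (.lt (.var 1) (.add (.var 0) .one))
  (.neg (.and (.neg (.eq (.var 0) (.add (.var 1) (.var 1))))
    (.neg (.eq (.var 0) (.add (.add (.var 1) (.var 1)) .one))))))

theorem par_D0 : D0 par := by
  refine D0.bex 1 _ (by simp [Tm.vars]) ?_
  exact .neg (.and (.neg (.eq _ _)) (.neg (.eq _ _)))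

theorem par_sat (u : J) : Sat (update (fun _ => (0 : J)) 0 u) par ↔
    ∃ w, w < u + 1 ∧ (u = w + w ∨ u = w + w + 1) := by
  simp only [par, Sat, Tm.val]
  refine exists_congr fun w => ?_
  simp only [update_self]
  rw [update_of_ne (by decide : (0 : ℕ) ≠ 1), update_self]
  tauto

theorem parity (hI : IDelta0 J) (u : J) : ∃ w, u = w + w ∨ u = w + w + 1 := by
  have h := hI par par_D0 0 (fun _ => (0 : J)) ?_ ?_ u
  · obtain ⟨w, _, hw⟩ := (par_sat u).1 h
    exact ⟨w, hw⟩
  · rw [par_sat]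
    exact ⟨0, by simp, Or.inl (by simp)⟩
  · intro u hu
    rw [par_sat] at hu ⊢
    obtain ⟨w, hw, h | h⟩ := hu
    · exact ⟨w, hw.trans (lt_add_one _), Or.inr (by rw [h])⟩
    · refine ⟨w + 1, by gcongr, Or.inl ?_⟩
      rw [h]; ring

end Seq

open Seq in
theorem t_seq : SEQStmt := by
  intro J _ hJc hI ε x y hε hxy p e₀ hCD
  have L1 : InL ε x y p (0 : J) := by
    obtain ⟨v, hv⟩ := hCD.zero
    refine ⟨v, fun x' hx' => ⟨v, le_rfl, ?_⟩⟩
    rw [le_antisymm hx' (pam_zero_le x')]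
    exact hv
  have L2 : ∀ v : J, InL ε x y p v → InL ε x y p (v + 1) := by
    rintro v ⟨z, hz⟩
    obtain ⟨y₁, _, hy₁⟩ := hz v le_rfl
    obtain ⟨y₂, hy₂⟩ := hCD.succ v ⟨y₁, hy₁⟩
    refine ⟨max z y₂, fun x' hx' => ?_⟩
    rcases hx'.eq_or_lt with rfl | h
    · exact ⟨y₂, le_max_right _ _, hy₂⟩
    · obtain ⟨y₃, h3, h4⟩ := hz x' (pam_lt_succ h)
      exact ⟨y₃, h3.trans (le_max_left _ _), h4⟩
  have L3 : ∀ v : J, InL ε x y p v → v ≤ e₀ := by
    rintro v ⟨z, hz⟩
    by_contra hc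
    obtain ⟨y₁, _, hy₁⟩ := hz e₀ (not_le.1 hc).le
    exact hCD.top y₁ hy₁
  have key : ∀ (v : {v : J // InL ε x y p v}) (b : Bool), ∃ u : {v : J // InL ε x y p v},
      v < u ∧ (b = true → ∃ w : J, (u : J) = w + w) ∧
        (b = false → ∃ w : J, (u : J) = w + w + 1) := by
    rintro ⟨v, hv⟩ b
    have h1 : v < v + 1 := lt_add_one v
    have h2 : v + 1 < v + 1 + 1 := lt_add_one _
    obtain ⟨w, hw | hw⟩ := parity hI v
    · cases b with
      | true =>
        refine ⟨⟨v + 1 + 1, L2 _ (L2 _ hv)⟩, h1.trans h2, fun _ => ⟨w + 1, ?_⟩,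
          fun h => absurd h (by decide)⟩
        change v + 1 + 1 = _
        rw [hw]; ring
      | false =>
        refine ⟨⟨v + 1, L2 _ hv⟩, h1, fun h => absurd h (by decide), fun _ => ⟨w, ?_⟩⟩
        change v + 1 = _
        rw [hw]
    · cases b with
      | true =>
        refine ⟨⟨v + 1, L2 _ hv⟩, h1, fun _ => ⟨w + 1, ?_⟩, fun h => absurd h (by decide)⟩
        change v + 1 = _
        rw [hw]; ring
      | false =>
        refine ⟨⟨v + 1 + 1, L2 _ (L2 _ hv)⟩, h1.trans h2, fun h => absurd h (by decide),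
          fun _ => ⟨w + 1, ?_⟩⟩
        change v + 1 + 1 = _
        rw [hw]; ring
  choose g hg1 hg2 hg3 using key
  have hne : Nonempty {v : J // InL ε x y p v} := ⟨⟨0, L1⟩⟩
  obtain ⟨f, hf⟩ := exists_surjective_nat {v : J // InL ε x y p v}
  let s : ℕ → {v : J // InL ε x y p v} := fun n => Nat.rec (f 0)
    (fun i r => max (max (g r true) (g r false)) (f (i + 1))) n
  have hs : ∀ i, s (i + 1) = max (max (g (s i) true) (g (s i) false)) (f (i + 1)) := fun _ => rfl
  have hgs : ∀ i b, g (s i) b ≤ s (i + 1) := by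
    intro i b
    rw [hs]
    cases b with
    | true => exact (le_max_left _ _).trans (le_max_left _ _)
    | false => exact (le_max_right _ _).trans (le_max_left _ _)
  have hfs : ∀ i, f i ≤ s i := by
    intro i
    cases i with
    | zero => exact le_rfl
    | succ i => rw [hs]; exact le_max_right _ _
  refine ⟨fun i b => (g (s i) b : J), fun i b => (g (s i) b).2, fun i b => L3 _ (g (s i) b).2,
    fun i b b' => ?_, fun v hv => ?_, fun i => hg2 _ _ rfl, fun i => hg3 _ _ rfl⟩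
  · exact lt_of_le_of_lt (hgs i b) (hg1 (s (i + 1)) b')
  · obtain ⟨i, hi⟩ := hf ⟨v, hv⟩
    refine ⟨i, fun b => ?_⟩
    have h1 : (⟨v, hv⟩ : {v : J // InL ε x y p v}) ≤ g (s i) b := by
      rw [← hi]
      exact (hfs i).trans (hg1 _ _).le
    exact h1

end Pool.FDA
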