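import Pool.Agent.H86.FDA.S1

/-! Rows UNI, TRS, CDT: transfer along elementary embeddings. -/

namespace Pool.FDA

open Function

namespace Uni

/-- universal closure over a list of variables -/
def uc : List ℕ → Fm → Fm
  | [], ψ => ψ
  | x :: l, ψ => Fm.all x (uc l ψ)

theorem sat_all {K : Type} [PAM K] (e : ℕ → K) (x : ℕ) (φ : Fm) :
    Sat e (Fm.all x φ) ↔ ∀ a, Sat (update e x a) φ := by
  simp only [Fm.all, Sat, not_exists, not_not]

theorem uc_sat {K : Type} [PAM K] (ψ : Fm) (l : List ℕ) : ∀ e : ℕ → K,
    Sat e (uc l ψ) ↔ ∀ e₁ : ℕ → K, (∀ n, n ∉ l → e₁ n = e n) → Sat e₁ ψ := by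
  induction l with
  | nil =>
    intro e
    constructor
    · intro h e₁ h1
      have : e₁ = e := funext fun n => h1 n (by simp)
      rw [this]; exact h
    · intro h
      exact h e fun _ _ => rfl
  | cons x l ih =>
    intro e
    rw [uc, sat_all]
    constructor
    · intro h e₁ h1
      refine (ih _).1 (h (e₁ x)) e₁ fun n hn => ?_
      by_cases hx : n = x
      · subst hx; simp
      · rw [update_of_ne hx]
        exact h1 n (by simp [hx, hn])
    · intro h a
      rw [ih]
      intro e₁ h1
      refine h e₁ fun n hn => ?_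
      rw [List.mem_cons, not_or] at hn
      rw [h1 n hn.2, update_of_ne hn.1]

theorem comp_upd {A B : Type} (f : A → B) (e : ℕ → A) (n : ℕ) (a : A) :
    (fun m => f (update e n a m)) = update (fun m => f (e m)) n (f a) := by
  funext m
  by_cases h : m = n
  · subst h; simp
  · simp [update_of_ne h]

end Uni

open Uni in
theorem t_uni (hC : COIStmt) : UNIStmt := by
  intro K K' _ _ ι hι ψ
  constructor
  · intro h e'
    have h1 : Sat (fun _ => (0 : K)) (uc ψ.fv.toList ψ) := by
      rw [uc_sat]
      exact fun e₁ _ => h e₁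
    rw [hι] at h1
    rw [uc_sat] at h1
    have h2 := h1 (fun n => if n ∈ ψ.fv then e' n else ι 0) (by
      intro n hn
      rw [Finset.mem_toList] at hn
      simp [hn])
    refine (hC K' ψ _ _ ?_).1 h2
    intro n hn
    simp [hn]
  · intro h e
    rw [hι]
    exact h _

namespace Trs

open Uni

/-- the induction step as a formula -/
theorem step_form (hC : COIStmt) (φ : Fm) (x : ℕ) : ∃ ψ : Fm, ∀ (K : Type) [PAM K] (e : ℕ → K),
    Sat e ψ ↔ ∀ u : K, Sat (update e x u) φ → Sat (update e x (u + 1)) φ := by
  obtain ⟨v, hv⟩ := Infinite.exists_notMem_finset (φ.fv ∪ {x})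
  simp only [Finset.mem_union, Finset.mem_singleton, not_or] at hv
  refine ⟨Fm.all x (.neg (.and φ (.neg (.ex v (.and (.eq (.var v) (.add (.var x) .one))
    (.ex x (.and (.eq (.var x) (.var v)) φ))))))), ?_⟩
  intro K _ e
  rw [sat_all]
  refine forall_congr' fun u => ?_
  have key : (∃ b : K, update (update e x u) v b v = update (update e x u) v b x + 1 ∧
      ∃ a : K, update (update (update e x u) v b) x a x =
        update (update (update e x u) v b) x a v ∧
        Sat (update (update (update e x u) v b) x a) φ) ↔ Sat (update e x (u + 1)) φ := by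
    have h1 : ∀ b : K, update (update e x u) v b v = b := fun b => by simp
    have h2 : ∀ b : K, update (update e x u) v b x = u := fun b => by
      rw [update_of_ne (Ne.symm hv.2)]; simp
    have h3 : ∀ a b : K, update (update (update e x u) v b) x a x = a := fun a b => by simp
    have h4 : ∀ a b : K, update (update (update e x u) v b) x a v = b := fun a b => by
      rw [update_of_ne hv.2]; simp
    simp only [h1, h2, h3, h4, exists_eq_left]
    refine hC K φ _ _ fun n hn => ?_
    by_cases hx : n = x
    · subst hx; simp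
    · have hnv : n ≠ v := fun h => hv.1 (h ▸ hn)
      rw [update_of_ne hx, update_of_ne hnv, update_of_ne hx, update_of_ne hx]
  simp only [Sat, Tm.val]
  rw [key]
  tauto

theorem ind_form (hC : COIStmt) (φ : Fm) (x : ℕ) : ∃ ψ : Fm, ∀ (K : Type) [PAM K] (e : ℕ → K),
    Sat e ψ ↔ (Sat (update e x 0) φ →
      (∀ u : K, Sat (update e x u) φ → Sat (update e x (u + 1)) φ) →
      ∀ u : K, Sat (update e x u) φ) := by
  obtain ⟨σ, hσ⟩ := step_form hC φ x
  refine ⟨.neg (.and (.ex x (.and (.eq (.var x) .zero) φ)) (.and σ (.neg (Fm.all x φ)))), ?_⟩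
  intro K _ e
  have h0 : (∃ a : K, update e x a x = 0 ∧ Sat (update e x a) φ) ↔ Sat (update e x 0) φ := by
    simp
  have h1 := hσ K e
  have h2 := sat_all e x φ
  simp only [Sat, Tm.val]
  rw [h0, h1, h2]
  tauto

theorem coll_form (hC : COIStmt) (φ : Fm) (x y : ℕ) (hxy : x ≠ y) : ∃ (ψ : Fm) (A : ℕ),
    ∀ (K : Type) [PAM K] (e : ℕ → K) (a : K), Sat (update e A a) ψ ↔
      ((∀ u < a, ∃ v, Sat (update (update e x u) y v) φ) →
        ∃ b, ∀ u < a, ∃ v < b, Sat (update (update e x u) y v) φ) := by
  obtain ⟨A, hA⟩ := Infinite.exists_notMem_finset (φ.fv ∪ {x, y})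
  obtain ⟨B, hB⟩ := Infinite.exists_notMem_finset (φ.fv ∪ {x, y, A})
  simp only [Finset.mem_union, Finset.mem_insert, Finset.mem_singleton, not_or] at hA hB
  refine ⟨.neg (.and (Fm.all x (.neg (.and (.lt (.var x) (.var A)) (.neg (.ex y φ)))))
    (.neg (.ex B (Fm.all x (.neg (.and (.lt (.var x) (.var A))
      (.neg (.ex y (.and (.lt (.var y) (.var B)) φ))))))))), A, ?_⟩
  intro K _ e a
  have k1 : Sat (update e A a) (Fm.all x (.neg (.and (.lt (.var x) (.var A)) (.neg (.ex y φ)))))
      ↔ ∀ u < a, ∃ v, Sat (update (update e x u) y v) φ := by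
    rw [sat_all]
    refine forall_congr' fun u => ?_
    have e1 : update (update e A a) x u x = u := by simp
    have e2 : update (update e A a) x u A = a := by
      rw [update_of_ne hA.2.1]; simp
    simp only [Sat, Tm.val, e1, e2]
    have e3 : ∀ v : K, Sat (update (update (update e A a) x u) y v) φ ↔
        Sat (update (update e x u) y v) φ := by
      intro v
      refine hC K φ _ _ fun n hn => ?_
      have hnA : n ≠ A := fun h => hA.1 (h ▸ hn)
      by_cases ny : n = y
      · subst ny; simp
      · rw [update_of_ne ny, update_of_ne ny]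
        by_cases nx : n = x
        · subst nx; simp
        · rw [update_of_ne nx, update_of_ne nx, update_of_ne hnA]
    simp only [e3]
    tauto
  have k2 : ∀ b : K, Sat (update (update e A a) B b) (Fm.all x (.neg (.and (.lt (.var x) (.var A))
      (.neg (.ex y (.and (.lt (.var y) (.var B)) φ)))))) ↔
      ∀ u < a, ∃ v < b, Sat (update (update e x u) y v) φ := by
    intro b
    rw [sat_all]
    refine forall_congr' fun u => ?_
    have e1 : update (update (update e A a) B b) x u x = u := by simp
    have e2 : update (update (update e A a) B b) x u A = a := by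
      rw [update_of_ne hA.2.1, update_of_ne (Ne.symm hB.2.2.2)]; simp
    have e5 : ∀ v : K, update (update (update (update e A a) B b) x u) y v y = v := by simp
    have e6 : ∀ v : K, update (update (update (update e A a) B b) x u) y v B = b := by
      intro v
      rw [update_of_ne hB.2.2.1, update_of_ne hB.2.1]; simp
    simp only [Sat, Tm.val, e1, e2, e5, e6]
    have e3 : ∀ v : K, Sat (update (update (update (update e A a) B b) x u) y v) φ ↔
        Sat (update (update e x u) y v) φ := by
      intro v
      refine hC K φ _ _ fun n hn => ?_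
      have hnA : n ≠ A := fun h => hA.1 (h ▸ hn)
      have hnB : n ≠ B := fun h => hB.1 (h ▸ hn)
      by_cases ny : n = y
      · subst ny; simp
      · rw [update_of_ne ny, update_of_ne ny]
        by_cases nx : n = x
        · subst nx; simp
        · rw [update_of_ne nx, update_of_ne nx, update_of_ne hnB, update_of_ne hnA]
    simp only [e3]
    exact not_and_not_right
  have k3 : Sat (update e A a) (.ex B (Fm.all x (.neg (.and (.lt (.var x) (.var A))
      (.neg (.ex y (.and (.lt (.var y) (.var B)) φ))))))) ↔
      ∃ b, ∀ u < a, ∃ v < b, Sat (update (update e x u) y v) φ :=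
    exists_congr k2
  change ¬ (_ ∧ ¬ _) ↔ _
  rw [k1, k3]
  tauto

end Trs

open Uni Trs in
theorem t_trs (hC : COIStmt) (hU : UNIStmt) : TRSStmt := by
  intro K K' _ _ ι _ hA
  constructor
  · have key : ∀ (L : Type) [PAM L], IDelta0 L ↔ ∀ φ : Fm, D0 φ → ∀ x : ℕ, ∀ e : ℕ → L,
        Sat e (ind_form hC φ x).choose := by
      intro L _
      refine forall_congr' fun φ => forall_congr' fun _ => forall_congr' fun x =>
        forall_congr' fun e => ?_
      exact ((ind_form hC φ x).choose_spec L e).symm
    rw [key K, key K']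
    refine forall_congr' fun φ => forall_congr' fun _ => forall_congr' fun x => ?_
    exact hU K K' ι hA _
  · have key : ∀ (L : Type) [PAM L], Coll0 L ↔ ∀ φ : Fm, D0 φ → ∀ x y : ℕ, ∀ h : x ≠ y,
        ∀ e : ℕ → L, Sat e (coll_form hC φ x y h).choose := by
      intro L _
      refine forall_congr' fun φ => forall_congr' fun _ => forall_congr' fun x =>
        forall_congr' fun y => forall_congr' fun h => ?_
      have hs := (coll_form hC φ x y h).choose_spec.choose_spec
      set A := (coll_form hC φ x y h).choose_spec.choose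
      constructor
      · intro H e
        have := (hs L e (e A)).2 (H e (e A))
        rwa [update_eq_self] at this
      · intro H e a
        exact (hs L e a).1 (H _)
    rw [key K, key K']
    refine forall_congr' fun φ => forall_congr' fun _ => forall_congr' fun x =>
      forall_congr' fun y => forall_congr' fun h => ?_
    exact hU K K' ι hA _

open Uni Trs in
theorem t_cdt (hC : COIStmt) : CDTStmt := by
  intro K K' _ _ ι hA ε x y hxy p e₀
  obtain ⟨σ, hσ⟩ := step_form hC (.ex y ε) x
  have k0 : ∀ a : K, (∃ v, Sat (update (update p x a) y v) ε) ↔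
      ∃ v, Sat (update (update (fun n => ι (p n)) x (ι a)) y v) ε := by
    intro a
    have := hA (.ex y ε) (update p x a)
    rw [comp_upd] at this
    exact this
  have k1 : (∀ u : K, (∃ v, Sat (update (update p x u) y v) ε) →
      ∃ v, Sat (update (update p x (u + 1)) y v) ε) ↔
      (∀ u : K', (∃ v, Sat (update (update (fun n => ι (p n)) x u) y v) ε) →
      ∃ v, Sat (update (update (fun n => ι (p n)) x (u + 1)) y v) ε) := by
    have h1 := hσ K p
    have h2 := hσ K' (fun n => ι (p n))
    exact h1.symm.trans ((hA σ p).trans h2)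
  constructor
  · intro h
    refine ⟨?_, k1.1 h.succ, ?_⟩
    · have := (k0 0).1 h.zero
      rwa [map_zero] at this
    · intro v hv
      obtain ⟨w, hw⟩ := (k0 e₀).2 ⟨v, hv⟩
      exact h.top w hw
  · intro h
    refine ⟨?_, k1.2 h.succ, ?_⟩
    · refine (k0 0).2 ?_
      rw [map_zero]
      exact h.zero
    · intro v hv
      obtain ⟨w, hw⟩ := (k0 e₀).1 ⟨v, hv⟩
      exact h.top w hw

end Pool.FDA
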